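import Pool.Agent.Y680.V.P5

/-!
MP_fd87b4_nt, Q1 (negated form).

X is the projective line over the integers minus the zero scheme of the form x^d - c y^d, for d at
least 3 and |c| at least 2; the base point is (1 : 0), which is an integral point of X; p is a prime
which does not divide 2dc.  Then X(Z) is strictly smaller than X(Z_p)_n for every n: the rational
point (0 : 1) is not integral, but its class is, at every prime other than p, the class of the
integral point (1 : 0).
-/

open Y680.V

noncomputable section

namespace Pool.Agent.Results.MP_fd87b4_nt.KimConjectureFails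

theorem result (d : ℕ) (c : ℤ) (p : ℕ) [Fact p.Prime] (hd : 3 ≤ d) (hc : 2 ≤ |c|)
    (hp : ¬ (p : ℤ) ∣ 2 * d * c) :
    Admissible (Polynomial.X ^ d - Polynomial.C c) p ∧
    ∀ n : ℕ, intPts (Polynomial.X ^ d - Polynomial.C c) p ⊂
      weaklyGlobal (AlgebraicClosure (RatFunc ℚ)) (Polynomial.X ^ d - Polynomial.C c) p n :=
  ⟨admissible_main hd hc hp, main_theorem d c p hd hc hp⟩

end Pool.Agent.Results.MP_fd87b4_nt.KimConjectureFails
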